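import Pool.Agent.Helper856.Cw.Width
import Pool.Agent.H333R2.St.Fin

/-!
# MP_43eff6_co, Q1: `(K_3, P_1 + S_{1,1,3})`-free and `(K_3, S_{1,2,3})`-free atoms

An atom is a connected graph without a clique cut-set.  For both graphs `H` of the question, the
`(K_3, H)`-free atoms have bounded clique-width (for `P_1 + S_{1,1,3}` even bounded linear
clique-width).  Both classes of atoms are infinite: they contain the complete bipartite graphs
`K_{n,n}`, `n ≥ 2`.
-/

open SimpleGraph Pool.Agent.Helper856.Lcw Pool.Agent.Helper856.Cw Pool.Agent.H333R2.St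

namespace Pool.Agent.Results.MP_43eff6_co.AtomsBounded

/-- `K` is a clique cut-set of `G`: a (possibly empty) clique such that `G - K` has two vertices
that are not joined by a path of `G - K`. -/
def IsCliqueCutSet {V : Type} (G : SimpleGraph V) (K : Set V) : Prop :=
  G.IsClique K ∧ ¬ (G.induce Kᶜ).Preconnected

/-- An atom: a connected graph with no clique cut-set. -/
def IsAtom {V : Type} (G : SimpleGraph V) : Prop :=
  G.Connected ∧ ∀ K : Set V, ¬ IsCliqueCutSet G K

theorem cw_empty {V : Type} [IsEmpty V] (G : SimpleGraph V) :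
    cliqueWidth G = 0 ∧ linearCliqueWidth G = 0 := by
  have h1 : {k | CwLE G k} = ∅ := by
    ext k
    simp only [Set.mem_setOf_eq, Set.mem_empty_iff_false, iff_false]
    rintro ⟨W, G', l, hb, ⟨e⟩⟩
    have hW : IsEmpty W := e.symm.toEquiv.isEmpty
    have key : ∀ (W : Type) (G' : SimpleGraph W) (l : W → Fin k), CwBuilt k W G' l →
        Nonempty W := by
      intro W G' l hb
      induction hb with
      | single i => exact ⟨()⟩
      | union V W G H l m _ _ ih1 _ => obtain ⟨v⟩ := ih1; exact ⟨Sum.inl v⟩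
      | join V G l i j _ _ ih => exact ih
      | relabel V G l i j _ ih => exact ih
    obtain ⟨w⟩ := key W G' l hb
    exact hW.false w
  have h2 : {k | LcwLE G k} = ∅ := by
    ext k
    simp only [Set.mem_setOf_eq, Set.mem_empty_iff_false, iff_false]
    intro h
    have : k ∈ ({k | CwLE G k} : Set ℕ) := cwLE_of_lcwLE h
    rw [h1] at this
    exact this
  constructor
  · unfold cliqueWidth
    rw [h1]
    simp
  · unfold linearCliqueWidth
    rw [h2]
    simp

/-- a complete bipartite graph with two non-empty sides of sizes at least two is an atom -/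
theorem atom_biclique (n : ℕ) (hn : 2 ≤ n) :
    IsAtom (completeBipartiteGraph (Fin n) (Fin n)) := by
  haveI : Nontrivial (Fin n) := Fin.nontrivial_iff_two_le.2 hn
  have hne : Nonempty (Fin n) := ⟨⟨0, by omega⟩⟩
  set G := completeBipartiteGraph (Fin n) (Fin n) with hG
  have adjLR : ∀ a b : Fin n, G.Adj (Sum.inl a) (Sum.inr b) := by intro a b; simp [hG]
  have key : ∀ K : Set (Fin n ⊕ Fin n), G.IsClique K → (G.induce Kᶜ).Preconnected := by
    intro K hK
    -- some vertex of each side outside `K`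
    obtain ⟨a, ha⟩ : ∃ a : Fin n, Sum.inl a ∉ K := by
      by_contra hcon
      push Not at hcon
      obtain ⟨x, y, hxy⟩ := exists_pair_ne (Fin n)
      have := hK (hcon x) (hcon y) (by simpa using hxy)
      simp [hG] at this
    obtain ⟨b, hb⟩ : ∃ b : Fin n, Sum.inr b ∉ K := by
      by_contra hcon
      push Not at hcon
      obtain ⟨x, y, hxy⟩ := exists_pair_ne (Fin n)
      have := hK (hcon x) (hcon y) (by simpa using hxy)
      simp [hG] at this
    have hab : (G.induce Kᶜ).Adj ⟨Sum.inl a, ha⟩ ⟨Sum.inr b, hb⟩ := by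
      simpa using adjLR a b
    have toa : ∀ v : (Kᶜ : Set (Fin n ⊕ Fin n)), (G.induce Kᶜ).Reachable v ⟨Sum.inl a, ha⟩ := by
      rintro ⟨v | v, hv⟩
      · have h1 : (G.induce Kᶜ).Adj ⟨Sum.inl v, hv⟩ ⟨Sum.inr b, hb⟩ := by
          simpa using adjLR v b
        exact h1.reachable.trans hab.symm.reachable
      · have h1 : (G.induce Kᶜ).Adj ⟨Sum.inr v, hv⟩ ⟨Sum.inl a, ha⟩ := by
          simpa using (adjLR a v).symm
        exact h1.reachable
    intro u v
    exact (toa u).trans (toa v).symm
  refine ⟨?_, fun K hK => hK.2 (key K hK.1)⟩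
  obtain ⟨z⟩ := hne
  haveI : Nonempty (Fin n ⊕ Fin n) := ⟨Sum.inl z⟩
  refine ⟨fun u v => ?_⟩
  have toa : ∀ v : Fin n ⊕ Fin n, G.Reachable v (Sum.inl z) := by
    rintro (v | v)
    · exact (adjLR v z).reachable.trans (adjLR z z).symm.reachable
    · exact (adjLR z v).symm.reachable
  exact (toa u).trans (toa v).symm

theorem biclique_triangleFree (n : ℕ) :
    (completeBipartiteGraph (Fin n) (Fin n)).CliqueFree 3 := by
  intro s hs
  rw [SimpleGraph.is3Clique_iff] at hs
  obtain ⟨a, b, c, hab, hac, hbc, -⟩ := hs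
  rcases a with a | a <;> rcases b with b | b <;> rcases c with c | c <;>
    simp at hab hac hbc

/-- in a complete bipartite graph, non-adjacency is transitive -/
theorem biclique_trans (n : ℕ) (x y z : Fin n ⊕ Fin n)
    (h1 : ¬ (completeBipartiteGraph (Fin n) (Fin n)).Adj x y)
    (h2 : ¬ (completeBipartiteGraph (Fin n) (Fin n)).Adj y z) :
    ¬ (completeBipartiteGraph (Fin n) (Fin n)).Adj x z := by
  rcases x with a | a <;> rcases y with b | b <;> rcases z with c | c <;>
    simp at h1 h2 ⊢

theorem biclique_P1 (n : ℕ) :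
    ¬ P1_S113.IsIndContained (completeBipartiteGraph (Fin n) (Fin n)) := by
  rintro ⟨e⟩
  have h1 : ¬ P1_S113.Adj 0 6 := by simp [P1_S113, gr, SimpleGraph.fromRel_adj]
  have h2 : ¬ P1_S113.Adj 6 1 := by simp [P1_S113, gr, SimpleGraph.fromRel_adj]
  have h3 : P1_S113.Adj 0 1 := by simp [P1_S113, gr, SimpleGraph.fromRel_adj]
  rw [← e.map_adj_iff] at h1 h2 h3
  exact biclique_trans n _ _ _ h1 h2 h3

theorem biclique_S123 (n : ℕ) :
    ¬ S123.IsIndContained (completeBipartiteGraph (Fin n) (Fin n)) := by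
  rintro ⟨e⟩
  have h1 : ¬ S123.Adj 0 6 := by simp [S123, gr, SimpleGraph.fromRel_adj]
  have h2 : ¬ S123.Adj 6 1 := by simp [S123, gr, SimpleGraph.fromRel_adj]
  have h3 : S123.Adj 0 1 := by simp [S123, gr, SimpleGraph.fromRel_adj]
  rw [← e.map_adj_iff] at h1 h2 h3
  exact biclique_trans n _ _ _ h1 h2 h3

/-- **Q1 of MP_43eff6_co, positive answer for both graphs.**
(1) There is a constant bounding the clique-width, and even the linear clique-width, of all
`(K_3, P_1 + S_{1,1,3})`-free atoms.
(2) There is a constant bounding the clique-width of all `(K_3, S_{1,2,3})`-free atoms.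
(3) For every `n ≥ 2` the complete bipartite graph `K_{n,n}` is an atom in both classes. -/
theorem result :
    (∃ c : ℕ, ∀ (V : Type) [Finite V] (G : SimpleGraph V), IsAtom G →
      G.CliqueFree 3 → ¬ P1_S113.IsIndContained G →
        cliqueWidth G ≤ c ∧ linearCliqueWidth G ≤ c) ∧
    (∃ c : ℕ, ∀ (V : Type) [Finite V] (G : SimpleGraph V), IsAtom G →
      G.CliqueFree 3 → ¬ S123.IsIndContained G → cliqueWidth G ≤ c) ∧
    (∀ n : ℕ, 2 ≤ n →
      IsAtom (completeBipartiteGraph (Fin n) (Fin n)) ∧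
      (completeBipartiteGraph (Fin n) (Fin n)).CliqueFree 3 ∧
      ¬ P1_S113.IsIndContained (completeBipartiteGraph (Fin n) (Fin n)) ∧
      ¬ S123.IsIndContained (completeBipartiteGraph (Fin n) (Fin n))) := by
  refine ⟨⟨2 * (5 * 10 ^ 8) + 1, fun V _ G _ hK hF => ?_⟩, ?_, fun n hn =>
    ⟨atom_biclique n hn, biclique_triangleFree n, biclique_P1 n, biclique_S123 n⟩⟩
  · cases isEmpty_or_nonempty V with
    | inl hV =>
      obtain ⟨h1, h2⟩ := cw_empty G
      rw [h1, h2]
      exact ⟨Nat.zero_le _, Nat.zero_le _⟩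
    | inr hV =>
      have h := lcw_bound G hK hF
      exact ⟨Nat.sInf_le (cwLE_of_lcwLE h), Nat.sInf_le h⟩
  · obtain ⟨c, hc⟩ := cw_K3_S123
    exact ⟨c, fun V _ G _ hK hF => hc V G hK hF⟩

end Pool.Agent.Results.MP_43eff6_co.AtomsBounded
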